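import Pool.Agent.QSB.StmtsA

/-!
# Squad QSN, row BRN: the brackets of the basis `e` (copy of `Helper16_QSX/BRE`)
-/

set_option autoImplicit false

namespace Pool.Agent.QSB.H10

open Matrix Finset Pool.Agent.QSX Pool.Agent.QSN

theorem brn (hcof : CofStmt) : BrnStmt := by
  intro X hX l l' hll'
  have he : ∀ t, SU (hX.e t) := fun t => hX.su_e t
  exact hcof ℝ X.m hX.ι (hX.e l) (hX.e l') hX.e (hX.L l l') (he l) (he l')
    (fun t _ => he t.1) (fun t ht => ⟨(hX.L_rt l l' t ht).1, (hX.L_rt l l' t ht).2.1⟩)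
    (fun x y => hX.com l l' hll' x y)

end Pool.Agent.QSB.H10
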