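import Pool.Agent.Helper62_QSX.CHB
import Pool.Agent.QSB.StmtsF

/-!
# QSN, row CBM: the logarithm of a homogeneous family is a sum of monomials (copy of QSX row CHB)
-/

set_option autoImplicit false

namespace Pool.Agent.QSB.H62

open Matrix Finset Pool.Agent.QSX Pool.Agent.QSN Pool.Agent.QSX.H62

theorem conj_eM {X : Dat} (hX : MRB X) (t : hX.ι) (a : X.b) :
    ((ud (a : Fin X.m → ℝ) : (Matrix (Fin X.m) (Fin X.m) ℝ)ˣ) : Matrix (Fin X.m) (Fin X.m) ℝ) *
      hX.e t * (((ud (a : Fin X.m → ℝ))⁻¹ : (Matrix (Fin X.m) (Fin X.m) ℝ)ˣ) :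
        Matrix (Fin X.m) (Fin X.m) ℝ) = Real.exp (hX.rt t a) • hX.e t := by
  ext i j
  change ((diagonal fun i => Real.exp ((a : Fin X.m → ℝ) i)) * hX.e t *
    (diagonal fun i => Real.exp (-(a : Fin X.m → ℝ) i))) i j = _
  rw [Matrix.mul_diagonal, Matrix.diagonal_mul, Matrix.smul_apply, smul_eq_mul]
  have h := congrFun (congrFun (hX.wt t a) i) j
  rw [Matrix.sub_apply, Matrix.diagonal_mul, Matrix.mul_diagonal, Matrix.smul_apply,
    smul_eq_mul] at h
  by_cases h0 : hX.e t i j = 0
  · rw [h0]; ring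
  · have h1 : (a : Fin X.m → ℝ) i - (a : Fin X.m → ℝ) j = hX.rt t a := by
      have h2 : ((a : Fin X.m → ℝ) i - (a : Fin X.m → ℝ) j - hX.rt t a) * hX.e t i j = 0 := by
        linarith
      have h3 := (mul_eq_zero.1 h2).resolve_right h0
      linarith
    rw [← h1, sub_eq_add_neg, Real.exp_add]
    ring

theorem cbm (hA : Pool.Agent.QSX.ChaStmt) (hL : Pool.Agent.QSX.LgmStmt) : CbmStmt := by
  intro X hX l l' hll G hG
  obtain ⟨ψ, hψ⟩ := exists_dual hX.e hX.lin
  have hψc : ∀ (c : hX.ι → ℝ) (t : hX.ι), ψ (∑ s, c s • hX.e s) t = c t := by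
    intro c t
    rw [map_sum, Finsupp.finsetSum_apply]
    rw [Finset.sum_eq_single t]
    · rw [map_smul, hψ, Finsupp.smul_apply, Finsupp.single_eq_same, smul_eq_mul, mul_one]
    · intro s _ hs
      rw [map_smul, hψ, Finsupp.smul_apply, Finsupp.single_eq_of_ne (fun h => hs h.symm),
        smul_zero]
    · intro h
      exact absurd (Finset.mem_univ t) h
  have hco : ∀ w ∈ X.n, w = ∑ t, ψ w t • hX.e t := by
    intro w hw
    rw [← hX.span_e, Submodule.mem_span_range_iff_exists_fun] at hw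
    obtain ⟨c, hc⟩ := hw
    conv_lhs => rw [← hc]
    refine Finset.sum_congr rfl fun t _ => ?_
    rw [← hc, hψc]
  have hZ : ∀ x y, evM x y (mlog G) ∈ X.n ∧ evM x y G = mexp (evM x y (mlog G)) := by
    intro x y
    obtain ⟨z, hz, hz'⟩ := hG.mem x y
    have h1 : evM x y (mlog G) = z := by
      rw [evM_mlog, hz']
      exact ((hL ℝ X.m).1 z (X.su z hz)).2
    rw [h1]
    exact ⟨hz, hz'⟩
  choose p hp using fun t : hX.ι => exists_poly ((Finsupp.lapply t) ∘ₗ ψ) (mlog G)
  have hp' : ∀ t x y, MvPolynomial.eval ![x, y] (p t) = ψ (evM x y (mlog G)) t := hp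
  have hhom : ∀ (t : hX.ι) (a : X.b) (x y : ℝ),
      MvPolynomial.eval ![Real.exp (hX.rt l a) * x, Real.exp (hX.rt l' a) * y] (p t) =
        Real.exp (hX.rt t a) * MvPolynomial.eval ![x, y] (p t) := by
    intro t a x y
    rw [hp', hp']
    have h1 : evM (Real.exp (hX.rt l a) * x) (Real.exp (hX.rt l' a) * y) (mlog G) =
        ((ud (a : Fin X.m → ℝ) : (Matrix (Fin X.m) (Fin X.m) ℝ)ˣ) :
          Matrix (Fin X.m) (Fin X.m) ℝ) * evM x y (mlog G) *
          (((ud (a : Fin X.m → ℝ))⁻¹ : (Matrix (Fin X.m) (Fin X.m) ℝ)ˣ) :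
            Matrix (Fin X.m) (Fin X.m) ℝ) := by
      rw [evM_mlog, evM_mlog, ← mlog_conj, ← hG.hom a x y]
      rfl
    have h3 : ((ud (a : Fin X.m → ℝ) : (Matrix (Fin X.m) (Fin X.m) ℝ)ˣ) :
          Matrix (Fin X.m) (Fin X.m) ℝ) * evM x y (mlog G) *
          (((ud (a : Fin X.m → ℝ))⁻¹ : (Matrix (Fin X.m) (Fin X.m) ℝ)ˣ) :
            Matrix (Fin X.m) (Fin X.m) ℝ) =
        ∑ s, (Real.exp (hX.rt s a) * ψ (evM x y (mlog G)) s) • hX.e s := by
      conv_lhs => rw [hco _ (hZ x y).1]
      rw [Finset.mul_sum, Finset.sum_mul]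
      refine Finset.sum_congr rfl fun s _ => ?_
      rw [Matrix.mul_smul, Matrix.smul_mul, conj_eM, smul_smul, mul_comm]
    rw [h1, h3]
    exact hψc _ t
  -- vanishing on the axes
  have hx0 : ∀ t x, MvPolynomial.eval ![x, 0] (p t) = 0 := by
    intro t x
    rw [hp', evM_mlog, (hG.triv x).1, mlog_one, map_zero]
    rfl
  have h0y : ∀ t y, MvPolynomial.eval ![0, y] (p t) = 0 := by
    intro t y
    rw [hp', evM_mlog, (hG.triv y).2, mlog_one, map_zero]
    rfl
  -- exponents of the monomials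
  have hsupp : ∀ t, ∀ d ∈ (p t).support, 1 ≤ d 0 ∧ 1 ≤ d 1 ∧
      hX.rt t = (d 0 : ℝ) • hX.rt l + (d 1 : ℝ) • hX.rt l' := by
    intro t d hd
    refine ⟨?_, ?_, ?_⟩
    · have h1 := coef_zero (p t) (fun d => 0 ^ d 0) (fun x y => by
        refine Eq.trans ?_ (h0y t y)
        rw [eval_two]
        refine Finset.sum_congr rfl fun d _ => ?_
        rcases Nat.eq_zero_or_pos (d 0) with h | h
        · rw [h]; ring
        · rw [zero_pow h.ne']; ring) d hd
      by_contra hcon
      have h2 : d 0 = 0 := by omega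
      simp only [h2, pow_zero] at h1
      exact one_ne_zero h1
    · have h1 := coef_zero (p t) (fun d => 0 ^ d 1) (fun x y => by
        refine Eq.trans ?_ (hx0 t x)
        rw [eval_two]
        refine Finset.sum_congr rfl fun d _ => ?_
        rcases Nat.eq_zero_or_pos (d 1) with h | h
        · rw [h]; ring
        · rw [zero_pow h.ne']; ring) d hd
      by_contra hcon
      have h2 : d 1 = 0 := by omega
      simp only [h2, pow_zero] at h1
      exact one_ne_zero h1
    · ext a
      have h1 := coef_zero (p t) (fun d => Real.exp (hX.rt l a) ^ d 0 *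
        Real.exp (hX.rt l' a) ^ d 1 - Real.exp (hX.rt t a)) (fun x y => by
        have h2 := hhom t a x y
        rw [eval_two, eval_two, Finset.mul_sum] at h2
        rw [← sub_eq_zero, ← Finset.sum_sub_distrib] at h2
        rw [← h2]
        refine Finset.sum_congr rfl fun d _ => ?_
        rw [mul_pow, mul_pow]
        ring) d hd
      have h3 : Real.exp ((d 0 : ℝ) * hX.rt l a + (d 1 : ℝ) * hX.rt l' a) =
          Real.exp (hX.rt t a) := by
        rw [Real.exp_add, Real.exp_nat_mul, Real.exp_nat_mul]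
        linarith
      rw [LinearMap.add_apply, LinearMap.smul_apply, LinearMap.smul_apply, smul_eq_mul,
        smul_eq_mul]
      exact (Real.exp_injective h3).symm
  -- uniqueness of the exponents
  have huniq : ∀ t, ∀ d ∈ (p t).support, ∀ d' ∈ (p t).support, d' = d := by
    intro t d hd d' hd'
    have h1 := (hsupp t d hd).2.2
    have h2 := (hsupp t d' hd').2.2
    have h3 : ∀ a, ((d 0 : ℝ) - d' 0) * hX.rt l a + ((d 1 : ℝ) - d' 1) * hX.rt l' a = 0 := by
      intro a
      have h4 := LinearMap.congr_fun (h1.symm.trans h2) a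
      simp only [LinearMap.add_apply, LinearMap.smul_apply, smul_eq_mul] at h4
      linarith
    have h5 : d 1 = d' 1 := by
      by_contra hcon
      have h6 : ((d 1 : ℝ) - d' 1) ≠ 0 := by
        intro h
        apply hcon
        have : (d 1 : ℝ) = d' 1 := by linarith
        exact_mod_cast this
      have hswap : ∀ c : ℝ, hX.rt l' ≠ c • hX.rt l := by
        intro c hc
        obtain ⟨a, ha⟩ := hX.pos
        have hc0 : c ≠ 0 := by
          rintro rfl
          have := ha l'
          rw [hc, zero_smul, LinearMap.zero_apply] at this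
          exact lt_irrefl _ this
        exact hll c⁻¹ (by rw [hc, smul_smul, inv_mul_cancel₀ hc0, one_smul])
      refine hswap (-((d 0 : ℝ) - d' 0) / ((d 1 : ℝ) - d' 1)) ?_
      ext a
      rw [LinearMap.smul_apply, smul_eq_mul]
      field_simp
      linarith [h3 a]
    have h7 : d 0 = d' 0 := by
      obtain ⟨a, ha⟩ := hX.pos
      have h8 := h3 a
      rw [h5, sub_self, zero_mul, add_zero] at h8
      have h9 := (mul_eq_zero.1 h8).resolve_right (ha l).ne'
      have : (d 0 : ℝ) = d' 0 := by linarith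
      exact_mod_cast this
    ext i
    match i with
    | 0 => exact h7.symm
    | 1 => exact h5.symm
  have key : ∀ t, ∃ P : ℕ × ℕ, (MvPolynomial.eval ![1, 1] (p t) ≠ 0 → 1 ≤ P.1 ∧ 1 ≤ P.2 ∧
      hX.rt t = (P.1 : ℝ) • hX.rt l + (P.2 : ℝ) • hX.rt l') ∧
      ∀ x y : ℝ, MvPolynomial.eval ![x, y] (p t) =
        MvPolynomial.eval ![1, 1] (p t) * x ^ P.1 * y ^ P.2 := by
    intro t
    by_cases h0 : p t = 0
    · refine ⟨(0, 0), ?_, ?_⟩
      · intro h
        rw [h0, map_zero] at h
        exact absurd rfl h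
      · intro x y
        rw [h0, map_zero, map_zero]
        ring
    · obtain ⟨d, hd⟩ := MvPolynomial.support_nonempty.2 h0
      have hs : (p t).support = {d} := by
        ext d'
        rw [Finset.mem_singleton]
        exact ⟨fun h => huniq t d hd d' h, fun h => h ▸ hd⟩
      refine ⟨(d 0, d 1), fun _ => hsupp t d hd, fun x y => ?_⟩
      rw [eval_two, eval_two, hs, Finset.sum_singleton, Finset.sum_singleton]
      ring
  choose P hP1 hP2 using key
  have hw : mlog (evM 1 1 G) = ∑ t, MvPolynomial.eval ![1, 1] (p t) • hX.e t := by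
    rw [← evM_mlog]
    conv_lhs => rw [hco _ (hZ 1 1).1]
    refine Finset.sum_congr rfl fun t _ => ?_
    rw [hp']
  have hq := hA X.m hX.ι hX.e (mlog (evM 1 1 G)) (fun t => MvPolynomial.eval ![1, 1] (p t))
    hX.lin hX.rat (mlog_rat _ hG.rat) hw
  choose c hc using hq
  refine ⟨c, P, fun t ht => hP1 t ?_, fun x y => ?_⟩
  · rw [hc t]
    exact_mod_cast ht
  · rw [(hZ x y).2]
    congr 1
    conv_lhs => rw [hco _ (hZ x y).1]
    refine Finset.sum_congr rfl fun t _ => ?_
    rw [← hp', hP2 t x y, hc t]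

end Pool.Agent.QSB.H62
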