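import Pool.Agent.QSB.StmtsF

set_option autoImplicit false

/-! # Squad QSN, row CKM: stripping the factors of lowest height (copy of Helper66_QSX/CHK) -/

namespace Pool.Agent.QSB.H17

open Matrix Finset Pool.Agent.QSX Pool.Agent.QSN

section W

variable {X : Dat} (hX : MRB X) (l l' : hX.ι)

/-- the positions of weight `p rt l + q rt l'` with `p + q ≥ K` -/
def Pos (K : ℕ) (i j : Fin X.m) : Prop :=
  ∃ p q : ℕ, 1 ≤ p ∧ 1 ≤ q ∧ K ≤ p + q ∧ ∀ a : X.b,
    (a : Fin X.m → ℝ) i - (a : Fin X.m → ℝ) j = p * hX.rt l a + q * hX.rt l' a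

/-- the matrices supported on these positions -/
def W (K : ℕ) : Submodule ℝ (Matrix (Fin X.m) (Fin X.m) ℝ) where
  carrier := {x | ∀ i j, x i j ≠ 0 → Pos hX l l' K i j}
  add_mem' := by
    intro x y hx hy i j h
    by_contra hn
    have h1 : x i j = 0 := by
      by_contra h1
      exact hn (hx i j h1)
    have h2 : y i j = 0 := by
      by_contra h2
      exact hn (hy i j h2)
    apply h
    rw [Matrix.add_apply, h1, h2, add_zero]
  zero_mem' := fun i j h => absurd rfl h
  smul_mem' := by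
    intro c x hx i j h
    apply hx i j
    intro h1
    apply h
    rw [Matrix.smul_apply, h1, smul_zero]

variable {hX l l'}

lemma W_mul {K K' : ℕ} {x y : Matrix (Fin X.m) (Fin X.m) ℝ} (hx : x ∈ W hX l l' K)
    (hy : y ∈ W hX l l' K') : x * y ∈ W hX l l' (K + K') := by
  intro i j h
  rw [Matrix.mul_apply] at h
  obtain ⟨k, _, hk⟩ := Finset.exists_ne_zero_of_sum_ne_zero h
  obtain ⟨p, q, hp, hq, hpq, ha⟩ := hx i k (left_ne_zero_of_mul hk)
  obtain ⟨p', q', hp', hq', hpq', ha'⟩ := hy k j (right_ne_zero_of_mul hk)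
  refine ⟨p + p', q + q', by omega, by omega, by omega, fun a => ?_⟩
  have h1 := ha a
  have h2 := ha' a
  push_cast
  linarith

lemma W_anti {K K' : ℕ} (h : K' ≤ K) {x : Matrix (Fin X.m) (Fin X.m) ℝ}
    (hx : x ∈ W hX l l' K) : x ∈ W hX l l' K' := by
  intro i j hij
  obtain ⟨p, q, hp, hq, hpq, ha⟩ := hx i j hij
  exact ⟨p, q, hp, hq, by omega, ha⟩

lemma W_pow {K : ℕ} {x : Matrix (Fin X.m) (Fin X.m) ℝ} (hx : x ∈ W hX l l' K) (n : ℕ) :
    x ^ (n + 1) ∈ W hX l l' ((n + 1) * K) := by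
  induction n with
  | zero => rw [zero_add, pow_one, one_mul]; exact hx
  | succ n ih =>
    rw [pow_succ, show (n + 1 + 1) * K = (n + 1) * K + K by ring]
    exact W_mul ih hx

lemma W_exp {K : ℕ} {x : Matrix (Fin X.m) (Fin X.m) ℝ} (hx : x ∈ W hX l l' K) :
    mexp x - 1 - x ∈ W hX l l' (2 * K) := by
  rcases Nat.eq_zero_or_pos X.m with h0 | h0
  · intro i
    exact absurd i.isLt (by omega)
  · obtain ⟨n, hn⟩ : ∃ n, X.m + 1 = n + 1 + 1 := ⟨X.m - 1, by omega⟩
    have e : mexp x - 1 - x =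
        ∑ k ∈ range n, (((k + 1 + 1).factorial : ℝ)⁻¹) • x ^ (k + 1 + 1) := by
      rw [mexp, hn, Finset.sum_range_succ', Finset.sum_range_succ']
      simp only [zero_add, Nat.factorial_one, Nat.cast_one, inv_one, pow_one, one_smul,
        Nat.factorial_zero, pow_zero]
      abel
    rw [e]
    refine Submodule.sum_mem _ fun k _ => Submodule.smul_mem _ _ ?_
    refine W_anti ?_ (W_pow hx (k + 1))
    exact Nat.mul_le_mul_right K (by omega)

lemma W_log {K : ℕ} {g : Matrix (Fin X.m) (Fin X.m) ℝ} (hx : g - 1 ∈ W hX l l' K) :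
    mlog g ∈ W hX l l' K := by
  rw [mlog]
  refine Submodule.sum_mem _ fun k _ => ?_
  rcases Nat.eq_zero_or_pos k with h | h
  · rw [h, Nat.cast_zero, div_zero, zero_smul]
    exact Submodule.zero_mem _
  · obtain ⟨n, rfl⟩ : ∃ n, k = n + 1 := ⟨k - 1, by omega⟩
    refine Submodule.smul_mem _ _ (W_anti ?_ (W_pow hx n))
    exact Nat.le_mul_of_pos_left K (by omega)

lemma wt_entry (hX : MRB X) (t : hX.ι) (a : X.b) (i j : Fin X.m) (h : hX.e t i j ≠ 0) :
    (a : Fin X.m → ℝ) i - (a : Fin X.m → ℝ) j = hX.rt t a := by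
  have h1 := congrFun (congrFun (hX.wt t a) i) j
  rw [Matrix.sub_apply, Matrix.diagonal_mul, Matrix.mul_diagonal, Matrix.smul_apply,
    smul_eq_mul] at h1
  have h2 : ((a : Fin X.m → ℝ) i - (a : Fin X.m → ℝ) j - hX.rt t a) * hX.e t i j = 0 := by
    linarith
  rcases mul_eq_zero.mp h2 with h3 | h3
  · linarith
  · exact absurd h3 h

lemma e_mem {K p q : ℕ} {t : hX.ι} (hp : 1 ≤ p) (hq : 1 ≤ q) (hK : K ≤ p + q)
    (hr : hX.rt t = (p : ℝ) • hX.rt l + (q : ℝ) • hX.rt l') : hX.e t ∈ W hX l l' K := by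
  intro i j h
  refine ⟨p, q, hp, hq, hK, fun a => ?_⟩
  rw [wt_entry hX t a i j h, hr]
  rfl

lemma prod_mod {K : ℕ} (f : hX.ι → Matrix (Fin X.m) (Fin X.m) ℝ) (S : List hX.ι)
    (hS : ∀ t ∈ S, f t ∈ W hX l l' K) :
    (S.map fun t => mexp (-(f t))).prod - 1 + (S.map f).sum ∈ W hX l l' (2 * K) := by
  induction S with
  | nil =>
    rw [List.map_nil, List.map_nil, List.prod_nil, List.sum_nil, sub_self, add_zero]
    exact Submodule.zero_mem _
  | cons t S ih =>
    have h1 := ih (fun s hs => hS s (List.mem_cons_of_mem t hs))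
    have hA : f t ∈ W hX l l' K := hS t List.mem_cons_self
    have hB : (S.map f).sum ∈ W hX l l' K := by
      refine list_sum_mem ?_
      intro x hx
      obtain ⟨s, hs, rfl⟩ := List.mem_map.mp hx
      exact hS s (List.mem_cons_of_mem t hs)
    have h2 := W_exp (Submodule.neg_mem _ hA)
    rw [List.map_cons, List.prod_cons, List.map_cons, List.sum_cons]
    set A := f t with hAd
    set B := (S.map f).sum with hBd
    set P := (S.map fun t => mexp (-(f t))).prod with hPd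
    have e : mexp (-A) * P - 1 + (A + B) =
        A * B + (P - 1 + B) - A * (P - 1 + B) + (mexp (-A) - 1 - -A)
          - (mexp (-A) - 1 - -A) * B + (mexp (-A) - 1 - -A) * (P - 1 + B) := by
      noncomm_ring
    rw [e]
    have m1 : A * B ∈ W hX l l' (2 * K) := by
      rw [two_mul]; exact W_mul hA hB
    have m2 : A * (P - 1 + B) ∈ W hX l l' (2 * K) := W_anti (by omega) (W_mul hA h1)
    have m3 : (mexp (-A) - 1 - -A) * B ∈ W hX l l' (2 * K) := W_anti (by omega) (W_mul h2 hB)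
    have m4 : (mexp (-A) - 1 - -A) * (P - 1 + B) ∈ W hX l l' (2 * K) :=
      W_anti (by omega) (W_mul h2 h1)
    exact Submodule.add_mem _ (Submodule.sub_mem _ (Submodule.add_mem _ (Submodule.sub_mem _
      (Submodule.add_mem _ m1 h1) m2) h2) m3) m4

end W

lemma mexp_prod (hB : BchStmt) (X : Dat) {ι : Type} (f : ι → Matrix (Fin X.m) (Fin X.m) ℝ)
    (S : List ι) (hf : ∀ t ∈ S, f t ∈ X.n) : ∀ w ∈ X.n, ∃ v ∈ X.n,
      mexp w * (S.map fun t => mexp (f t)).prod = mexp v := by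
  induction S with
  | nil =>
    intro w hw
    exact ⟨w, hw, by rw [List.map_nil, List.prod_nil, mul_one]⟩
  | cons t S ih =>
    intro w hw
    obtain ⟨u, hu, he⟩ := hB ℝ X.m X.n X.su X.lie w hw (f t) (hf t List.mem_cons_self)
    have h1 : mexp w * mexp (f t) = mexp u := by
      have h2 := congrArg Units.val he
      rwa [Units.val_mul, ue_val (X.su w hw), ue_val (X.su _ (hf t List.mem_cons_self)),
        ue_val (X.su u hu)] at h2
    obtain ⟨v, hv, hv2⟩ := ih (fun s hs => hf s (List.mem_cons_of_mem t hs)) u hu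
    refine ⟨v, hv, ?_⟩
    rw [List.map_cons, List.prod_cons, ← mul_assoc, h1, hv2]

theorem ckm (hB : BchStmt) (hL : LgmStmt) : CkmStmt := by
  classical
  intro X hX l l' _ K hK z h hz S hS hS1 hS2
  have he : ∀ t, hX.e t ∈ X.n := by
    intro t
    rw [← hX.span_e]
    exact Submodule.subset_span ⟨t, rfl⟩
  have hzn : (∑ t, z t • hX.e t) ∈ X.n :=
    Submodule.sum_mem _ fun t _ => Submodule.smul_mem _ _ (he t)
  obtain ⟨w, hw, hwe⟩ := mexp_prod hB X (fun t => -(z t • hX.e t)) S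
    (fun t _ => Submodule.neg_mem _ (Submodule.smul_mem _ _ (he t))) _ hzn
  have hw' := hw
  rw [← hX.span_e, Submodule.mem_span_range_iff_exists_fun] at hw'
  obtain ⟨x, hx⟩ := hw'
  refine ⟨x, ?_, ?_⟩
  · rw [hx]
    exact hwe
  -- the weights
  have hmem : ∀ t, z t • hX.e t ∈ W hX l l' K := by
    intro t
    by_cases h0 : z t = 0
    · rw [h0, zero_smul]; exact Submodule.zero_mem _
    · obtain ⟨h1, p, q, hp, hq, hpq, hr⟩ := hz t h0
      exact Submodule.smul_mem _ _ (e_mem hp hq (by omega) hr)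
  have hmem2 : ∀ t, t ∉ S → z t • hX.e t ∈ W hX l l' (K + 1) := by
    intro t ht
    by_cases h0 : z t = 0
    · rw [h0, zero_smul]; exact Submodule.zero_mem _
    · obtain ⟨h1, p, q, hp, hq, hpq, hr⟩ := hz t h0
      have h2 : h t ≠ K := fun h3 => ht (hS1 t h0 h3)
      exact Submodule.smul_mem _ _ (e_mem hp hq (by omega) hr)
  have hzK : (∑ t, z t • hX.e t) ∈ W hX l l' K := Submodule.sum_mem _ fun t _ => hmem t
  have hBK : (S.map fun t => z t • hX.e t).sum ∈ W hX l l' K := by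
    refine list_sum_mem ?_
    intro y hy
    obtain ⟨s, _, rfl⟩ := List.mem_map.mp hy
    exact hmem s
  have hdiff : (∑ t, z t • hX.e t) - (S.map fun t => z t • hX.e t).sum ∈ W hX l l' (K + 1) := by
    rw [← List.sum_toFinset _ hS, ← Finset.sum_sdiff (Finset.subset_univ S.toFinset),
      add_sub_cancel_right]
    refine Submodule.sum_mem _ fun t ht => hmem2 t ?_
    intro h1
    exact (Finset.mem_sdiff.mp ht).2 (List.mem_toFinset.mpr h1)
  have hE := W_exp hzK
  have hP := prod_mod (fun t => z t • hX.e t) S (fun t _ => hmem t)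
  have hG : mexp w - 1 ∈ W hX l l' (K + 1) := by
    rw [← hwe]
    set Z := ∑ t, z t • hX.e t with hZd
    set B := (S.map fun t => z t • hX.e t).sum with hBd
    set P := (S.map fun t => mexp (-(z t • hX.e t))).prod with hPd
    have e : mexp Z * P - 1 = (Z - B) - Z * B + Z * (P - 1 + B) + (mexp Z - 1 - Z)
        - (mexp Z - 1 - Z) * B + (mexp Z - 1 - Z) * (P - 1 + B) + (P - 1 + B) := by
      noncomm_ring
    rw [e]
    have m1 : Z * B ∈ W hX l l' (K + 1) := W_anti (by omega) (W_mul hzK hBK)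
    have m2 : Z * (P - 1 + B) ∈ W hX l l' (K + 1) := W_anti (by omega) (W_mul hzK hP)
    have m3 : (mexp Z - 1 - Z) ∈ W hX l l' (K + 1) := W_anti (by omega) hE
    have m4 : (mexp Z - 1 - Z) * B ∈ W hX l l' (K + 1) := W_anti (by omega) (W_mul hE hBK)
    have m5 : (mexp Z - 1 - Z) * (P - 1 + B) ∈ W hX l l' (K + 1) :=
      W_anti (by omega) (W_mul hE hP)
    have m6 : (P - 1 + B) ∈ W hX l l' (K + 1) := W_anti (by omega) hP
    exact Submodule.add_mem _ (Submodule.add_mem _ (Submodule.sub_mem _ (Submodule.add_mem _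
      (Submodule.add_mem _ (Submodule.sub_mem _ hdiff m1) m2) m3) m4) m5) m6
  have hwW : w ∈ W hX l l' (K + 1) := by
    have h1 := ((hL ℝ X.m).1 w (X.su w hw)).2
    rw [← h1]
    exact W_log hG
  intro t ht
  -- an entry of the class of t
  obtain ⟨cl, hcl⟩ : ∃ cl : Finset hX.ι, cl = Finset.univ.filter fun s => hX.rt s = hX.rt t :=
    ⟨_, rfl⟩
  have hclm : ∀ s, s ∈ cl ↔ hX.rt s = hX.rt t := by
    intro s
    rw [hcl, Finset.mem_filter]
    exact ⟨fun h => h.2, fun h => ⟨Finset.mem_univ _, h⟩⟩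
  have hne : ∑ s ∈ cl, x s • hX.e s ≠ 0 := by
    intro h0
    exact ht (linearIndependent_iff'.1 hX.lin cl x h0 t ((hclm t).2 rfl))
  obtain ⟨i, j, hij⟩ : ∃ i j, (∑ s ∈ cl, x s • hX.e s) i j ≠ 0 := by
    by_contra hcon
    push Not at hcon
    apply hne
    ext i j
    exact hcon i j
  have hij' := hij
  rw [Matrix.sum_apply] at hij'
  obtain ⟨s₀, hs₀, hs₁⟩ := Finset.exists_ne_zero_of_sum_ne_zero hij'
  have hs₂ : hX.e s₀ i j ≠ 0 := by
    intro h0
    apply hs₁
    rw [Matrix.smul_apply, h0, smul_zero]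
  have hwt : ∀ a : X.b, (a : Fin X.m → ℝ) i - (a : Fin X.m → ℝ) j = hX.rt t a := by
    intro a
    rw [wt_entry hX s₀ a i j hs₂, (hclm s₀).1 hs₀]
  have hwij : w i j = (∑ s ∈ cl, x s • hX.e s) i j := by
    rw [← hx, Matrix.sum_apply, Matrix.sum_apply]
    symm
    refine Finset.sum_subset (Finset.subset_univ _) fun s _ hs => ?_
    rw [Matrix.smul_apply, smul_eq_mul]
    have h1 : hX.e s i j = 0 := by
      by_contra h2
      apply hs
      rw [hclm]
      apply LinearMap.ext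
      intro a
      rw [← wt_entry hX s a i j h2, ← hwt a]
    rw [h1, mul_zero]
  obtain ⟨p, q, hp, hq, hpq, ha⟩ := hwW i j (by
    rw [hwij]
    exact hij)
  refine ⟨p, q, hp, hq, hpq, ?_⟩
  apply LinearMap.ext
  intro a
  rw [← hwt a, ha a]
  rfl

end Pool.Agent.QSB.H17
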