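import Pool.Agent.QSB.StmtsB
import Pool.Agent.QSX.StmtsG

/-!
# Squad QSN, row CLQ: lower bound for elements of a root space
-/

set_option autoImplicit false

namespace Pool.Agent.QSB.H24

open Matrix Finset Pool.Agent.QSX Pool.Agent.QSN

theorem ud_zero' (m : ℕ) : ud (0 : Fin m → ℝ) = 1 := by
  apply Units.ext
  show (diagonal fun i => Real.exp ((0 : Fin m → ℝ) i)) = 1
  rw [← diagonal_one]
  congr 1
  funext i
  rw [Pi.zero_apply, Real.exp_zero]

theorem span_entry {X : Dat} (hX : MB X) (Ψ : Set hX.ι) (z : Matrix (Fin X.m) (Fin X.m) ℝ)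
    (hz : z ∈ Submodule.span ℝ (hX.e '' Ψ)) (i j : Fin X.m)
    (h : ∀ ν ∈ Ψ, hX.e ν i j = 0) : z i j = 0 := by
  induction hz using Submodule.span_induction with
  | mem x hx =>
    obtain ⟨ν, hν, rfl⟩ := hx
    exact h ν hν
  | zero => rfl
  | add x y _ _ hx hy => rw [Matrix.add_apply, hx, hy, add_zero]
  | smul c x _ hx => rw [Matrix.smul_apply, hx, smul_zero]

theorem span_mem {X : Dat} (hX : MB X) (Ψ : Set hX.ι) (z : Matrix (Fin X.m) (Fin X.m) ℝ)
    (hz : z ∈ Submodule.span ℝ (hX.e '' Ψ)) : z ∈ X.n := by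
  rw [← hX.span_e]
  exact Submodule.span_mono (Set.image_subset_range _ _) hz

theorem wt_entry {X : Dat} (hX : MB X) (ν : hX.ι) (a : X.b) (i j : Fin X.m)
    (h : hX.e ν i j ≠ 0) : (a : Fin X.m → ℝ) i - (a : Fin X.m → ℝ) j = hX.rt ν a := by
  have h1 := congrFun (congrFun (hX.wt ν a) i) j
  rw [Matrix.sub_apply, Matrix.diagonal_mul, Matrix.mul_diagonal, Matrix.smul_apply,
    smul_eq_mul] at h1
  have h2 : ((a : Fin X.m → ℝ) i - (a : Fin X.m → ℝ) j - hX.rt ν a) * hX.e ν i j = 0 := by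
    linear_combination h1
  rcases mul_eq_zero.mp h2 with h3 | h3
  · linarith
  · exact absurd h3 h

/-- the conjugate -/
noncomputable def cj {m : ℕ} (a : Fin m → ℝ) (z : Matrix (Fin m) (Fin m) ℝ) :
    Matrix (Fin m) (Fin m) ℝ :=
  (((ud a)⁻¹ : (Matrix (Fin m) (Fin m) ℝ)ˣ) : Matrix (Fin m) (Fin m) ℝ) * z *
    ((ud a : (Matrix (Fin m) (Fin m) ℝ)ˣ) : Matrix (Fin m) (Fin m) ℝ)

theorem cj_apply {m : ℕ} (a : Fin m → ℝ) (z : Matrix (Fin m) (Fin m) ℝ) (i j : Fin m) :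
    cj a z i j = Real.exp (-a i) * z i j * Real.exp (a j) := by
  show ((diagonal fun i => Real.exp (-a i)) * z * (diagonal fun i => Real.exp (a i))) i j = _
  rw [Matrix.mul_diagonal, Matrix.diagonal_mul]

theorem cj_su {m : ℕ} (a : Fin m → ℝ) (z : Matrix (Fin m) (Fin m) ℝ) (hz : SU z) :
    SU (cj a z) := by
  intro i j h
  rw [cj_apply, hz i j h, mul_zero, zero_mul]

theorem cj_ue (mcj : McjStmt) {m : ℕ} (a : Fin m → ℝ) (z : Matrix (Fin m) (Fin m) ℝ)
    (hz : SU z) : (ud a)⁻¹ * ue z * ud a = ue (cj a z) := by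
  have h1 := mcj ℝ m (ud a)⁻¹ z hz (by rw [inv_inv]; exact cj_su a z hz)
  rw [inv_inv] at h1
  exact h1.symm

theorem clq (mcj : McjStmt) (pln : PlnStmt) : ClqStmt := by
  intro X hX
  obtain ⟨K, hK, hpln⟩ := pln X.m
  refine ⟨K⁻¹, 1, inv_pos.2 hK, ?_⟩
  intro l z hz i j hij a
  have hsu : SU z := X.su z (span_mem hX _ z hz)
  rw [cj_ue mcj _ z hsu]
  have h1 := (hpln (cj (a : Fin X.m → ℝ) z) 0 (cj_su _ z hsu)).2.1
  rw [ud_zero', mul_one] at h1
  have hne : ∃ ν ∈ {t | hX.rt t = hX.rt l}, hX.e ν i j ≠ 0 := by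
    by_contra hc
    push Not at hc
    exact hij (span_entry hX _ z hz i j hc)
  obtain ⟨ν, hν, hνe⟩ := hne
  have h2 := wt_entry hX ν a i j hνe
  have hν' : hX.rt ν = hX.rt l := hν
  rw [hν'] at h2
  have h3 : |cj (a : Fin X.m → ℝ) z i j| = |z i j| * Real.exp (-(hX.rt l a)) := by
    rw [cj_apply, abs_mul, abs_mul, abs_of_pos (Real.exp_pos _), abs_of_pos (Real.exp_pos _),
      ← h2, neg_sub, sub_eq_add_neg, Real.exp_add]
    ring
  have h4 : |cj (a : Fin X.m → ℝ) z i j| ≤ sz (cj (a : Fin X.m → ℝ) z) := by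
    unfold sz
    refine le_trans ?_ (Finset.single_le_sum (f := fun i => ∑ j, |cj (a : Fin X.m → ℝ) z i j|)
      (fun i _ => Finset.sum_nonneg fun j _ => abs_nonneg _) (Finset.mem_univ i))
    exact Finset.single_le_sum (f := fun j => |cj (a : Fin X.m → ℝ) z i j|)
      (fun j _ => abs_nonneg _) (Finset.mem_univ j)
  have h5 : Real.log |z i j| - hX.rt l a ≤ Real.log (1 + sz (cj (a : Fin X.m → ℝ) z)) := by
    have e : Real.log |z i j| - hX.rt l a = Real.log (|z i j| * Real.exp (-(hX.rt l a))) := by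
      rw [Real.log_mul (abs_ne_zero.mpr hij) (Real.exp_pos _).ne', Real.log_exp]
      ring
    rw [e, ← h3]
    apply Real.log_le_log
    · rw [h3]
      exact mul_pos (abs_pos.mpr hij) (Real.exp_pos _)
    · linarith
  have h6 : Real.log |z i j| - hX.rt l a ≤ K * (len (ue (cj (a : Fin X.m → ℝ) z)) + 1) :=
    h5.trans h1
  have h7 : K⁻¹ * (Real.log |z i j| - hX.rt l a) ≤ len (ue (cj (a : Fin X.m → ℝ) z)) + 1 := by
    rw [inv_mul_le_iff₀ hK]
    exact h6
  linarith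

end Pool.Agent.QSB.H24
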