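import Pool.Agent.QSB.StmtsB

/-!
# QSN squad, row DFQ: the differentiation data of an embedding (adapted from
`Pool/Agent/Helper25_QSX/DIF.lean`)
-/

set_option autoImplicit false

namespace Pool.Agent.QSB.H16

open Matrix Finset Pool.Agent.QSX Pool.Agent.QSN

theorem ue_zero {R : Type} [CommRing R] [Algebra ℝ R] {m : ℕ} :
    ue (0 : Matrix (Fin m) (Fin m) R) = 1 := by
  apply Units.ext
  rw [ue_val SU.zero, mexp_zero, Units.val_one]

theorem ud_add {m : ℕ} (c c' : Fin m → ℝ) : ud (c + c') = ud c * ud c' := by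
  apply Units.ext
  rw [Units.val_mul]
  change diagonal (fun i => Real.exp ((c + c') i)) =
    diagonal (fun i => Real.exp (c i)) * diagonal (fun i => Real.exp (c' i))
  rw [diagonal_mul_diagonal]
  congr 1
  funext i
  rw [Pi.add_apply, Real.exp_add]

theorem ud_neg {m : ℕ} (c : Fin m → ℝ) : ud (-c) = (ud c)⁻¹ := by
  apply Units.ext
  change diagonal (fun i => Real.exp ((-c) i)) = diagonal (fun i => Real.exp (-c i))
  rfl

/-- the open chamber spans -/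
theorem span_pos {X : Dat} (hX : MB X) :
    Submodule.span ℝ {a : X.b | ∀ l, 0 < hX.rt l a} = ⊤ := by
  obtain ⟨a₀, ha₀⟩ := hX.pos
  rw [eq_top_iff]
  rintro v -
  have h1 : ∀ l, ∀ᶠ t in nhdsWithin (0 : ℝ) (Set.Ioi 0), 0 < hX.rt l (a₀ + t • v) := by
    intro l
    have h2 : Filter.Tendsto (fun t : ℝ => hX.rt l a₀ + t * hX.rt l v)
        (nhdsWithin (0 : ℝ) (Set.Ioi 0)) (nhds (hX.rt l a₀ + 0 * hX.rt l v)) := by
      have hc : Continuous (fun t : ℝ => hX.rt l a₀ + t * hX.rt l v) := by fun_prop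
      exact (hc.tendsto 0).mono_left nhdsWithin_le_nhds
    rw [zero_mul, add_zero] at h2
    filter_upwards [h2.eventually (lt_mem_nhds (ha₀ l))] with t ht
    rw [map_add, map_smul, smul_eq_mul]
    exact ht
  have h3 : ∀ᶠ t in nhdsWithin (0 : ℝ) (Set.Ioi 0), ∀ l, 0 < hX.rt l (a₀ + t • v) :=
    Filter.eventually_all.2 h1
  obtain ⟨t, ht, ht0⟩ := (h3.and self_mem_nhdsWithin).exists
  have ht0' : (0 : ℝ) < t := ht0
  have h4 : v = t⁻¹ • ((a₀ + t • v) - a₀) := by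
    rw [add_sub_cancel_left, smul_smul, inv_mul_cancel₀ ht0'.ne', one_smul]
  rw [h4]
  exact Submodule.smul_mem _ _ (Submodule.sub_mem _ (Submodule.subset_span ht)
    (Submodule.subset_span ha₀))

/-- **Row DFQ.** -/
theorem dfq (h0 : CnqStmt) (_h1 : GrpStmt) (h2 : LudStmt) (h3 : HvbStmt) (_h6 : MijStmt) :
    DfqStmt := by
  intro X Y hX E _ _ f hf G hG
  obtain ⟨L, C, hL, hC, hq⟩ := hf
  obtain ⟨K, hK, hhv⟩ := h3 Y E
  obtain ⟨K₀, hK₀, hcn⟩ := h0 X hX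
  have hpt : ∀ g : G, ∃ p : X.Pt, (g : (Matrix (Fin X.m) (Fin X.m) ℝ)ˣ) = X.mat p := fun g =>
    (hG g).1 g.2
  choose pt hpt using hpt
  have hA : ∀ a : X.b, ud (a : Fin X.m → ℝ) ∈ G := by
    intro a
    rw [hG]
    refine ⟨((0 : X.n), a), ?_⟩
    unfold Dat.mat
    change ud (a : Fin X.m → ℝ) = ue ((0 : X.n) : Matrix (Fin X.m) (Fin X.m) ℝ) * ud (a : Fin X.m → ℝ)
    rw [ZeroMemClass.coe_zero, ue_zero, one_mul]
  refine ⟨pt, ⟨fun g => len (g : (Matrix (Fin X.m) (Fin X.m) ℝ)ˣ), fun g => hv Y E (f (pt g)),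
    fun a => ⟨ud (a : Fin X.m → ℝ), hA a⟩,
    {g : G | ∃ x ∈ X.n, (g : (Matrix (Fin X.m) (Fin X.m) ℝ)ˣ) = ue x}, {a : X.b | ∀ l, 0 < hX.rt l a},
    K * L, K * C, 1, by positivity, by positivity, zero_le_one, ?_, ?_, ?_, span_pos hX, ?_⟩,
    hpt, fun g => rfl, fun a => rfl, fun g => rfl, rfl⟩
  · intro x u
    rw [norm_sub_rev]
    have e1 := (hhv (f (pt x)) (f (pt (x * u)))).2.2
    have e2 := (hq (pt x) (pt (x * u))).2
    have e3 : X.dist (pt x) (pt (x * u)) = len (u : (Matrix (Fin X.m) (Fin X.m) ℝ)ˣ) := by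
      unfold Dat.dist
      rw [← hpt, ← hpt, Subgroup.coe_mul, inv_mul_cancel_left]
    rw [e3] at e2
    calc ‖hv Y E (f (pt x)) - hv Y E (f (pt (x * u)))‖
        ≤ K * pdist Y E (f (pt x)) (f (pt (x * u))) := e1
      _ ≤ K * (L * len (u : (Matrix (Fin X.m) (Fin X.m) ℝ)ˣ) + C) :=
          mul_le_mul_of_nonneg_left e2 hK.le
      _ = K * L * len (u : (Matrix (Fin X.m) (Fin X.m) ℝ)ˣ) + K * C := by ring
  · intro a a'
    apply Subtype.ext
    change ud ((a + a' : X.b) : Fin X.m → ℝ) = ud (a : Fin X.m → ℝ) * ud (a' : Fin X.m → ℝ)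
    rw [Submodule.coe_add, ud_add]
  · intro a
    have e1 := h2 X.m (a : Fin X.m → ℝ)
    rw [one_mul]
    exact e1
  · rintro n ⟨z, hz, hnz⟩ a ha
    have hz' : z ∈ Submodule.span ℝ (hX.e '' Set.univ) := by
      rw [Set.image_univ, hX.span_e]; exact hz
    have hM0 : 0 ≤ ∑ i, ∑ j, |z i j| :=
      Finset.sum_nonneg fun i _ => Finset.sum_nonneg fun j _ => abs_nonneg _
    have hM : ∀ i j, |z i j| ≤ ∑ i, ∑ j, |z i j| := by
      intro i j
      calc |z i j| ≤ ∑ j, |z i j| :=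
            Finset.single_le_sum (f := fun j => |z i j|) (fun j _ => abs_nonneg _) (mem_univ j)
        _ ≤ ∑ i, ∑ j, |z i j| :=
            Finset.single_le_sum (f := fun i => ∑ j, |z i j|)
              (fun i _ => Finset.sum_nonneg fun j _ => abs_nonneg _) (mem_univ i)
    refine ⟨K₀ * (Real.log (1 + K₀ * (∑ i, ∑ j, |z i j|) * Real.exp 0) + 1), fun j => ?_⟩
    have e1 := hcn Set.univ z hz' _ hM0 hM ((j : ℝ) • a) 0 (by
      intro l _
      rw [neg_zero, map_smul, smul_eq_mul]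
      exact mul_nonneg (Nat.cast_nonneg j) (ha l).le)
    change len (ud ((-((j : ℝ) • a) : X.b) : Fin X.m → ℝ) *
      (n : (Matrix (Fin X.m) (Fin X.m) ℝ)ˣ) * ud (((j : ℝ) • a : X.b) : Fin X.m → ℝ)) ≤ _
    rw [Submodule.coe_neg, ud_neg, hnz]
    exact e1

end Pool.Agent.QSB.H16
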