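import Pool.Agent.QSB.StmtsB2

set_option autoImplicit false

/-! # Row SPV: the support of the differences -/

namespace Pool.Agent.QSB.H67

open Matrix Finset Pool.Agent.QSX Filter Topology Pool.Agent.QSN

theorem dual_zero {X : Dat} (hX : MB X) (Ψ : Set hX.ι) : (0 : X.b) ∈ hX.dual Ψ := by
  intro ν _
  rw [map_zero]

theorem dual_cone {X : Dat} (hX : MB X) (Ψ : Set hX.ι) :
    ∀ a ∈ hX.dual Ψ, ∀ c : ℝ, 0 ≤ c → c • a ∈ hX.dual Ψ := by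
  intro a ha c hc ν hν
  rw [map_smul, smul_eq_mul]
  exact mul_nonneg hc (ha ν hν)

theorem spv (nre : NreStmt) (rdm : RdmStmt) (bch : BchStmt) (lgm : LgmStmt) : SpvStmt := by
  intro X Y hX H A n n' hn hn' Ψ z K hz i l hil hne
  have hnear := A.near n n' hn.1 hn'.1 hn.2 hn'.2 Ψ z K 0 le_rfl (by
    filter_upwards [hz] with s hs
    refine ⟨hs.1, fun i j => ?_, hs.2.2⟩
    rw [zero_mul, neg_zero, Real.exp_zero, mul_one]
    exact hs.2.1 i j)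
  have hset : ({a : X.b | ‖a‖ ≤ 1} ∩ {a | ∀ ν ∈ Ψ, -(0 : ℝ) ≤ hX.rt ν a}) =
      {a : X.b | ‖a‖ ≤ 1} ∩ hX.dual Ψ := by
    rw [neg_zero]
    rfl
  rw [hset] at hnear
  have hUU : ∀ s, UU ((((A.χ s (n s))⁻¹ * A.χ s (n' s) : UX Y) :
      Matrix (Fin Y.m) (Fin Y.m) ℝ)) := by
    intro s
    obtain ⟨y, hy, e⟩ := A.χn s (n s)
    obtain ⟨y', hy', e'⟩ := A.χn s (n' s)
    have hinv : (ue y)⁻¹ = ue (-y) := by
      apply Units.ext
      rw [ue_inv_val (Y.su y hy), ue_val (Y.su (-y) (Y.n.neg_mem hy))]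
    obtain ⟨w, hw, ew⟩ := bch ℝ Y.m Y.n Y.su Y.lie (-y) (Y.n.neg_mem hy) y' hy'
    rw [e, e', hinv, ew, ue_val (Y.su w hw)]
    exact ((lgm ℝ Y.m).1 w (Y.su w hw)).1
  have h1 := nre A.S X.b Y.m A.P (hX.dual Ψ) (dual_zero hX Ψ) (dual_cone hX Ψ) _ hUU hnear
  refine ⟨h1.2 i l hil hne, ?_⟩
  by_contra hcon
  push Not at hcon
  exact hne (((rdm A.S Y.m).2.2.2.2 _ h1.1 i l).2
    (A.zero n n' hn.1 hn'.1 hn.2 hn'.2 i l hil hcon))

end Pool.Agent.QSB.H67
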