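import Pool.Agent.QSB.StmtsB
import Pool.Agent.Helper86_QSX.LEN
import Pool.Agent.Helper2_QSX.PLN
import Pool.Agent.Helper95_QSX.BCH
import Pool.Agent.Helper28_QSX.LGM
import Pool.Agent.Helper99_QSX.DEX
import Pool.Agent.Helper80_QSX.NRM

/-!
# Squad QSN, row WDS: the words of the grid are equivariant and bounded
-/

set_option autoImplicit false

namespace Pool.Agent.QSB.H81

open Matrix Finset Pool.Agent.QSX Filter Topology Pool.Agent.QSN

theorem nrm' : NrmStmt := Pool.Agent.QSX.H80.nrm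
theorem len' : LenStmt := Pool.Agent.QSX.H86.len nrm'
theorem lgm' : LgmStmt := Pool.Agent.QSX.H28.lgm
theorem pln' : PlnStmt := Pool.Agent.QSX.H2.pln nrm' len' lgm'
theorem bch' : BchStmt := Pool.Agent.QSX.H95.bch lgm' Pool.Agent.QSX.H99.dex

theorem ue_zero {m : ℕ} : ue (0 : Matrix (Fin m) (Fin m) ℝ) = 1 := by
  apply Units.ext
  rw [ue_val SU.zero, mexp_zero, Units.val_one]

theorem ud_zero {m : ℕ} : ud (0 : Fin m → ℝ) = 1 := by
  apply Units.ext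
  ext i j
  simp [ud, Matrix.one_apply]

theorem len_nonneg {m : ℕ} (g : (Matrix (Fin m) (Fin m) ℝ)ˣ) : 0 ≤ len g := (len' m g g).1

theorem len_mul {m : ℕ} (g h : (Matrix (Fin m) (Fin m) ℝ)ˣ) : len (g * h) ≤ len g + len h :=
  (len' m g h).2.2.1

theorem sz_nonneg {m : ℕ} (x : Matrix (Fin m) (Fin m) ℝ) : 0 ≤ sz x :=
  Finset.sum_nonneg fun _ _ => Finset.sum_nonneg fun _ _ => abs_nonneg _

theorem sz_smul {m : ℕ} (c : ℝ) (x : Matrix (Fin m) (Fin m) ℝ) : sz (c • x) = |c| * sz x := by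
  unfold sz
  rw [Finset.mul_sum]
  refine Finset.sum_congr rfl fun i _ => ?_
  rw [Finset.mul_sum]
  refine Finset.sum_congr rfl fun j _ => ?_
  rw [Matrix.smul_apply, smul_eq_mul, abs_mul]

theorem sz_add {m : ℕ} (x y : Matrix (Fin m) (Fin m) ℝ) : sz (x + y) ≤ sz x + sz y := by
  unfold sz
  rw [← Finset.sum_add_distrib]
  refine Finset.sum_le_sum fun i _ => ?_
  rw [← Finset.sum_add_distrib]
  refine Finset.sum_le_sum fun j _ => ?_
  rw [Matrix.add_apply]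
  exact abs_add_le _ _

theorem sz_zero {m : ℕ} : sz (0 : Matrix (Fin m) (Fin m) ℝ) = 0 := by
  simp [sz]

theorem sz_sum {m : ℕ} {κ : Type} (s : Finset κ) (f : κ → Matrix (Fin m) (Fin m) ℝ) :
    sz (∑ k ∈ s, f k) ≤ ∑ k ∈ s, sz (f k) := by
  classical
  induction s using Finset.induction_on with
  | empty => simp [sz_zero]
  | insert a s ha ih =>
    rw [Finset.sum_insert ha, Finset.sum_insert ha]
    exact le_trans (sz_add _ _) (add_le_add le_rfl ih)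

theorem su_sum {m : ℕ} {κ : Type} (s : Finset κ) (f : κ → Matrix (Fin m) (Fin m) ℝ)
    (hf : ∀ k, SU (f k)) : SU (∑ k ∈ s, f k) := by
  classical
  induction s using Finset.induction_on with
  | empty => simpa using SU.zero
  | insert a s ha ih =>
    rw [Finset.sum_insert ha]
    exact (hf a).add ih

/-- Bounded coordinates: bounded length. -/
theorem bdd {m : ℕ} {κ : Type} [Fintype κ] (v : κ → Matrix (Fin m) (Fin m) ℝ) (hv : ∀ k, SU (v k))
    (B : ℝ) : ∃ K0 : ℝ, 0 ≤ K0 ∧ ∀ z : κ → ℝ, (∀ k, |z k| ≤ B) → len (ue (∑ k, z k • v k)) ≤ K0 := by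
  obtain ⟨K, hK, h⟩ := pln' m
  obtain ⟨S, hS⟩ : ∃ S : ℝ, S = ∑ k, |B| * sz (v k) := ⟨_, rfl⟩
  have hS0 : 0 ≤ S := by
    rw [hS]
    exact Finset.sum_nonneg fun k _ => mul_nonneg (abs_nonneg _) (sz_nonneg _)
  refine ⟨K * (Real.log (1 + S) + 1), ?_, ?_⟩
  · have := Real.log_nonneg (by linarith : 1 ≤ 1 + S)
    positivity
  intro z hz
  have hsu : SU (∑ k, z k • v k) := su_sum _ _ fun k => (hv k).smul _
  have h1 := (h (∑ k, z k • v k) 0 hsu).2.2
  rw [ud_zero, mul_one, norm_zero, zero_add] at h1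
  refine le_trans h1 ?_
  have h2 : sz (∑ k, z k • v k) ≤ S := by
    rw [hS]
    refine le_trans (sz_sum _ _) (Finset.sum_le_sum fun k _ => ?_)
    rw [sz_smul]
    exact mul_le_mul_of_nonneg_right (le_trans (hz k) (le_abs_self B)) (sz_nonneg _)
  have h3 : Real.log (1 + sz (∑ k, z k • v k)) ≤ Real.log (1 + S) :=
    Real.log_le_log (by linarith [sz_nonneg (∑ k, z k • v k)]) (by linarith)
  exact mul_le_mul_of_nonneg_left (by linarith) hK.le

theorem abs_div_le {h M : ℕ} (hM : 0 < M) {a : ℤ} (ha : |a| ≤ ((h * M : ℕ) : ℤ)) :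
    |(a : ℝ) / M| ≤ h := by
  have hM' : (0 : ℝ) < M := by exact_mod_cast hM
  rw [abs_div, abs_of_pos hM', div_le_iff₀ hM']
  have h1 : ((|a| : ℤ) : ℝ) ≤ (((h * M : ℕ) : ℤ) : ℝ) := by exact_mod_cast ha
  push_cast at h1
  exact h1

section

variable {X : Dat} {hX : MB X} (H : Grd hX)

theorem gp_zero (M : ℕ) : H.gp M 0 = 1 := by
  unfold Grd.gp Grd.u
  rw [← ue_zero]
  congr 1
  simp

theorem gp_add (cen : CenStmt) (M : ℕ) (m m0 : Fin H.D → ℤ) :
    H.gp M (m + m0) = H.gp M m0 * H.gp M m := by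
  have h3 := (cen X hX H).2.2.1
  unfold Grd.gp
  rw [← h3]
  congr 1
  funext k
  simp only [Pi.add_apply]
  push_cast
  ring

theorem md_add (m m' m0 : Fin H.D → ℤ) (k : ℕ) :
    H.md (m + m0) (m' + m0) k = H.md m m' k + m0 := by
  funext i
  simp only [Grd.md, Pi.add_apply]
  split_ifs <;> rfl

theorem diff_add (m m' m0 : Fin H.D → ℤ) (k : Fin H.D) :
    ((((m' + m0) k - (m + m0) k : ℤ) : ℝ)) = ((m' k - m k : ℤ) : ℝ) := by
  simp only [Pi.add_apply]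
  push_cast
  ring

theorem wd_shift (cen : CenStmt) (i : Fin H.D × Fin 5) (M : ℕ) (m m' m0 : Fin H.D → ℤ) :
    H.wd i M (m + m0) (m' + m0) = H.gp M m0 * H.wd i M m m' := by
  obtain ⟨k, j⟩ := i
  match j with
  | 0 =>
    show H.gp M (H.md (m + m0) (m' + m0) k) = H.gp M m0 * H.gp M (H.md m m' k)
    rw [md_add, gp_add H cen]
  | 1 =>
    show H.gp M (H.md (m + m0) (m' + m0) k) * ue (hX.e (H.l k)) =
      H.gp M m0 * (H.gp M (H.md m m' k) * ue (hX.e (H.l k)))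
    rw [md_add, gp_add H cen, mul_assoc]
  | 2 =>
    show H.gp M (H.md (m + m0) (m' + m0) k) * ue (hX.e (H.l k)) *
      ue (((((m' + m0) k - (m + m0) k : ℤ) : ℝ) / M) • hX.e (H.m k)) =
      H.gp M m0 * (H.gp M (H.md m m' k) * ue (hX.e (H.l k)) *
        ue ((((m' k - m k : ℤ) : ℝ) / M) • hX.e (H.m k)))
    rw [md_add, gp_add H cen, diff_add, mul_assoc, mul_assoc, mul_assoc]
  | 3 =>
    show H.gp M (H.md (m + m0) (m' + m0) (k + 1)) *
      ue (((((m' + m0) k - (m + m0) k : ℤ) : ℝ) / M) • hX.e (H.m k)) =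
      H.gp M m0 * (H.gp M (H.md m m' (k + 1)) *
        ue ((((m' k - m k : ℤ) : ℝ) / M) • hX.e (H.m k)))
    rw [md_add, gp_add H cen, diff_add, mul_assoc]
  | 4 =>
    show H.gp M (H.md (m + m0) (m' + m0) (k + 1)) = H.gp M m0 * H.gp M (H.md m m' (k + 1))
    rw [md_add, gp_add H cen]

theorem e_mem (l : hX.ι) : hX.e l ∈ X.n := by
  rw [← hX.span_e]
  exact Submodule.subset_span ⟨l, rfl⟩

theorem mulE {g h : UX X} (hg : ∃ x ∈ X.n, g = ue x) (hh : ∃ x ∈ X.n, h = ue x) :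
    ∃ x ∈ X.n, g * h = ue x := by
  obtain ⟨x, hx, rfl⟩ := hg
  obtain ⟨y, hy, rfl⟩ := hh
  exact bch' ℝ X.m X.n X.su X.lie x hx y hy

theorem gpE (cen : CenStmt) (M : ℕ) (m : Fin H.D → ℤ) : ∃ x ∈ X.n, H.gp M m = ue x :=
  ⟨_, Submodule.sum_mem _ fun k _ => X.n.smul_mem _ ((cen X hX H).1 k).1, rfl⟩

theorem wdE (cen : CenStmt) (i : Fin H.D × Fin 5) (M : ℕ) (m m' : Fin H.D → ℤ) :
    ∃ x ∈ X.n, H.wd i M m m' = ue x := by
  have he : ∀ (c : ℝ) (l : hX.ι), ∃ x ∈ X.n, (ue (c • hX.e l) : UX X) = ue x := fun c l =>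
    ⟨_, X.n.smul_mem _ (e_mem l), rfl⟩
  have he1 : ∀ l : hX.ι, ∃ x ∈ X.n, (ue (hX.e l) : UX X) = ue x := fun l => ⟨_, e_mem l, rfl⟩
  obtain ⟨k, j⟩ := i
  match j with
  | 0 => exact gpE H cen M _
  | 1 => exact mulE (gpE H cen M _) (he1 _)
  | 2 => exact mulE (mulE (gpE H cen M _) (he1 _)) (he _ _)
  | 3 => exact mulE (gpE H cen M _) (he _ _)
  | 4 => exact gpE H cen M _

theorem md_le {m m' : Fin H.D → ℤ} {B : ℤ} (h : ∀ k, |m k| ≤ B) (h' : ∀ k, |m' k| ≤ B) (k : ℕ) :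
    ∀ i, |H.md m m' k i| ≤ B := by
  intro i
  unfold Grd.md
  split_ifs
  · exact h' i
  · exact h i

theorem gp_bdd (cen : CenStmt) : ∃ K0 : ℝ, 0 ≤ K0 ∧ ∀ (M : ℕ) (m : Fin H.D → ℤ), 0 < M →
    (∀ k, |m k| ≤ ((HH H.D * M : ℕ) : ℤ)) → len (H.gp M m) ≤ K0 := by
  obtain ⟨K0, h0, h1⟩ := bdd (fun k => H.w k) (fun k => X.su _ ((cen X hX H).1 k).1) (HH H.D : ℝ)
  refine ⟨K0, h0, fun M m hM hm => ?_⟩
  exact h1 (fun k => (m k : ℝ) / M) fun k => abs_div_le hM (hm k)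

theorem e_bdd (B : ℝ) : ∃ K0 : ℝ, 0 ≤ K0 ∧ ∀ (c : ℝ) (l : hX.ι), |c| ≤ B →
    len (ue (c • hX.e l)) ≤ K0 := by
  have h : ∀ l : hX.ι, ∃ K0 : ℝ, 0 ≤ K0 ∧ ∀ c : ℝ, |c| ≤ B → len (ue (c • hX.e l)) ≤ K0 := by
    intro l
    obtain ⟨K0, h0, h1⟩ := bdd (fun _ : Fin 1 => hX.e l) (fun _ => X.su _ (e_mem l)) B
    refine ⟨K0, h0, fun c hc => ?_⟩
    have h2 := h1 (fun _ => c) (fun _ => hc)
    simpa using h2
  choose K h0 h1 using h
  refine ⟨∑ l, K l, Finset.sum_nonneg fun l _ => h0 l, fun c l hc => ?_⟩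
  exact le_trans (h1 l c hc) (Finset.single_le_sum (f := K) (fun l _ => h0 l) (Finset.mem_univ l))

end

/-- WDS. -/
theorem wds (cen : CenStmt) : WdsStmt := by
  intro X hX H
  refine ⟨gp_zero H, fun i M m m' m0 => wd_shift H cen i M m m' m0,
    fun i M m m' => wdE H cen i M m m', fun M m y hy => mulE (gpE H cen M m) ⟨y, hy, rfl⟩, ?_, ?_⟩
  · obtain ⟨K1, k1, h1⟩ := gp_bdd H cen
    obtain ⟨K2, k2, h2⟩ := e_bdd (hX := hX) ((2 * HH H.D : ℕ) : ℝ)
    refine ⟨K1 + K2 + K2, ?_⟩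
    intro i M m m' hM hm hm'
    have hg : ∀ k, len (H.gp M (H.md m m' k)) ≤ K1 := fun k => h1 M _ hM (md_le H hm hm' k)
    have he : ∀ l : hX.ι, len (ue (hX.e l)) ≤ K2 := by
      intro l
      have h3 := h2 1 l (by
        rw [abs_one]
        have : 1 ≤ 2 * HH H.D := by unfold HH; omega
        exact_mod_cast this)
      rwa [one_smul] at h3
    have hc : ∀ (k : Fin H.D) (l : hX.ι), len (ue ((((m' k - m k : ℤ) : ℝ) / M) • hX.e l)) ≤ K2 := by
      intro k l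
      apply h2
      apply abs_div_le hM
      have a1 := hm k
      have a2 := hm' k
      have a3 : |m' k - m k| ≤ |m' k| + |m k| := abs_sub _ _
      push_cast at a1 a2 ⊢
      linarith
    obtain ⟨k, j⟩ := i
    match j with
    | 0 =>
      show len (H.gp M (H.md m m' k)) ≤ _
      linarith [hg k]
    | 1 =>
      show len (H.gp M (H.md m m' k) * ue (hX.e (H.l k))) ≤ _
      linarith [hg k, he (H.l k), len_mul (H.gp M (H.md m m' k)) (ue (hX.e (H.l k)))]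
    | 2 =>
      show len (H.gp M (H.md m m' k) * ue (hX.e (H.l k)) *
        ue ((((m' k - m k : ℤ) : ℝ) / M) • hX.e (H.m k))) ≤ _
      linarith [hg k, he (H.l k), hc k (H.m k), len_mul (H.gp M (H.md m m' k)) (ue (hX.e (H.l k))),
        len_mul (H.gp M (H.md m m' k) * ue (hX.e (H.l k)))
          (ue ((((m' k - m k : ℤ) : ℝ) / M) • hX.e (H.m k)))]
    | 3 =>
      show len (H.gp M (H.md m m' (k + 1)) *
        ue ((((m' k - m k : ℤ) : ℝ) / M) • hX.e (H.m k))) ≤ _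
      linarith [hg (k + 1), hc k (H.m k), len_mul (H.gp M (H.md m m' (k + 1)))
          (ue ((((m' k - m k : ℤ) : ℝ) / M) • hX.e (H.m k)))]
    | 4 =>
      show len (H.gp M (H.md m m' (k + 1))) ≤ _
      linarith [hg (k + 1)]
  · intro γ
    obtain ⟨K1, k1, h1⟩ := gp_bdd H cen
    refine ⟨K1 + len γ, ?_⟩
    intro M m hM hm
    exact le_trans (len_mul _ _) (by linarith [h1 M m hM hm])

end Pool.Agent.QSB.H81
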