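import Pool.Agent.QSB.StmtsC

set_option autoImplicit false

/-!
# QSN, row WKM: from the residue field to a weak embedding
-/

namespace Pool.Agent.QSB.H77

open Matrix Finset Pool.Agent.QSX Pool.Agent.QSN

/-- **WKM** -/
theorem wkm (grn : GrnStmt) (trn : TrnStmt) (cln : ClnStmt) (wke : WkeStmt) : WkmStmt := by
  intro X Y hX S P hP C hC hT
  obtain ⟨κ, hκ, C', hC'⟩ := grn X Y hX S.FF P hP C hC hT
  obtain ⟨C₂, hC₂⟩ := trn X Y hX S P hP κ C' hC'
  exact wke X Y hX P hP κ hκ C₂ hC₂ (cln X hX Y.m C₂ hC₂.2.2.1 hC₂.2.2.2)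

end Pool.Agent.QSB.H77
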