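import Pool.Agent.QSB.StmtsA

/-!
# Row WTX of squad QSN: elements of `n` of a given weight
-/

set_option autoImplicit false

namespace Pool.Agent.QSB.H4

open Matrix Finset Pool.Agent.QSX Pool.Agent.QSN

/-- WTX. -/
theorem wtx : WtxStmt := by
  intro X hX ρ x hx hw
  rw [← hX.span_e, Submodule.mem_span_range_iff_exists_fun] at hx
  obtain ⟨a, ha⟩ := hx
  have key : ∀ c : X.b, ∀ t, a t * (hX.rt t c - ρ c) = 0 := by
    intro c
    have h1 : ∑ t, (a t * (hX.rt t c - ρ c)) • hX.e t = 0 := by
      have h2 := hw c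
      rw [← ha, Finset.mul_sum, Finset.sum_mul, ← Finset.sum_sub_distrib, Finset.smul_sum] at h2
      have h3 : ∑ t, (a t * (hX.rt t c - ρ c)) • hX.e t =
          ∑ t, (diagonal (c : Fin X.m → ℝ) * a t • hX.e t -
            a t • hX.e t * diagonal (c : Fin X.m → ℝ)) - ∑ t, ρ c • a t • hX.e t := by
        rw [← Finset.sum_sub_distrib]
        refine Finset.sum_congr rfl fun t _ => ?_
        rw [Matrix.mul_smul, Matrix.smul_mul, ← smul_sub, hX.wt t c, smul_smul, smul_smul,
          ← sub_smul]
        congr 1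
        ring
      rw [h3, h2, sub_self]
    exact Fintype.linearIndependent_iff.mp hX.lin _ h1
  rw [← ha]
  refine Submodule.sum_mem _ fun t _ => ?_
  by_cases h0 : a t = 0
  · rw [h0, zero_smul]
    exact Submodule.zero_mem _
  · refine Submodule.smul_mem _ _ (Submodule.subset_span ⟨t, ?_, rfl⟩)
    show hX.rt t = ρ
    refine LinearMap.ext fun c => ?_
    have h := key c t
    rcases mul_eq_zero.mp h with h | h
    · exact absurd h h0
    · exact sub_eq_zero.mp h

end Pool.Agent.QSB.H4
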