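import Pool.Agent.Helper10_QSX.ASM
import Pool.Agent.Helper50_QSN.SQN
import Pool.Agent.Helper85_QSN.TYQ
import Pool.Agent.Helper28_QSN.HUL
import Pool.Agent.Helper12_QSN.OVS
import Pool.Agent.Helper65_QSN.CRM
import Pool.Agent.Helper24_QSN.CMM
import Pool.Agent.Helper47_QSN.GZE
import Pool.Agent.Helper75_QSN.MAJ
import Pool.Agent.Helper34_QSN.LGC
import Pool.Agent.Helper89_QSN.NVK
import Pool.Agent.Helper89_QSN.NSM
import Pool.Agent.Helper17_QSN.GEN
import Pool.Agent.Helper17_QSN.CLN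
import Pool.Agent.Helper45_QSB.WTX
import Pool.Agent.Helper45_QSB.BRN
import Pool.Agent.Helper45_QSB.CVL
import Pool.Agent.Helper45_QSB.NVP
import Pool.Agent.Helper45_QSB.CLQ
import Pool.Agent.Helper45_QSB.DFQ
import Pool.Agent.Helper45_QSB.VGQ
import Pool.Agent.Helper45_QSB.CNQ
import Pool.Agent.Helper45_QSB.SPV
import Pool.Agent.Helper45_QSB.MDV
import Pool.Agent.Helper45_QSB.LIQ
import Pool.Agent.Helper45_QSB.SCL
import Pool.Agent.Helper45_QSB.FLQ
import Pool.Agent.Helper45_QSB.SML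
import Pool.Agent.Helper45_QSB.WDS
import Pool.Agent.Helper45_QSB.GAQ
import Pool.Agent.Helper45_QSB.AQM
import Pool.Agent.Helper45_QSB.ADT
import Pool.Agent.Helper45_QSB.CTR
import Pool.Agent.Helper45_QSB.VRQ
import Pool.Agent.Helper45_QSB.INQ
import Pool.Agent.Helper45_QSB.WKM
import Pool.Agent.Helper45_QSB.CBM
import Pool.Agent.Helper45_QSB.CCM
import Pool.Agent.Helper45_QSB.CKM
import Pool.Agent.Helper45_QSB.CDM
import Pool.Agent.Helper45_QSB.CVM
import Pool.Agent.Helper30_QSB.CSR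
import Pool.Agent.Helper30_QSB.CEN
import Pool.Agent.Helper30_QSB.BAS
import Pool.Agent.Helper30_QSB.AZE
import Pool.Agent.Helper62_QSB.CS2
import Pool.Agent.Helper77_QSB.BC2
import Pool.Agent.Helper51_QSB.KNR
import Pool.Agent.Helper57_QSB.GEN
import Pool.Agent.Helper98_QSB.INM
import Pool.Agent.Helper47_QSB.IVM
import Pool.Agent.Helper18_QSB.TAD
import Pool.Agent.Helper21_QSB.BRM
import Pool.Agent.Helper85_QSB.TPR
import Pool.Agent.Helper72_QSB.WKT
import Pool.Agent.Helper28_QSB.IVQ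
import Pool.Agent.Helper46_QSB.PTQ
import Pool.Agent.Helper81_QSB.TOQ
import Pool.Agent.Helper16_QSB.GRN
import Pool.Agent.Helper61_QSB.TRN
import Pool.Agent.Helper34_QSB.CLN
import Pool.Agent.Helper50_QSB.WKE

set_option autoImplicit false

/-! # Squad QSB: assembly of the analytic rows

`all`: a quasi-isometric embedding of a domain in the sense of `MB` (every symmetric space
without rank one factors other than the hyperbolic plane, roots may be non-reduced) into a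
model space times a finite-dimensional Euclidean space yields a weak algebraic embedding. -/

namespace Pool.Agent.QSB.All

open Pool.Agent.QSX.Asm

/-! ## Rows of squad QSN which do not mention the domain -/

theorem n_nsm : Pool.Agent.QSN.NsmStmt := Pool.Agent.QSN.H89.nsm
theorem n_crm : Pool.Agent.QSN.CrmStmt := Pool.Agent.QSN.H65.crm n_nsm
theorem n_cmm : Pool.Agent.QSN.CmmStmt := Pool.Agent.QSN.H24.cmm n_crm
theorem n_gls : Pool.Agent.QSN.GlsStmt := Pool.Agent.QSN.H17.gls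
theorem n_cam : Pool.Agent.QSN.CamStmt := Pool.Agent.QSN.H17.cam a_cha
theorem n_min : Pool.Agent.QSN.MinStmt := Pool.Agent.QSN.H17.min
theorem n_tyq : Pool.Agent.QSN.TyqStmt := Pool.Agent.QSN.H85.tyq
theorem n_sqn : Pool.Agent.QSN.SqnStmt := Pool.Agent.QSN.H50.sqn n_tyq
theorem n_gze : Pool.Agent.QSN.GzeStmt := Pool.Agent.QSN.H47.gze
theorem n_maj : Pool.Agent.QSN.MajStmt := Pool.Agent.QSN.H75.maj
theorem n_lgc : Pool.Agent.QSN.LgcStmt := Pool.Agent.QSN.H34.lgc
theorem n_ovs : Pool.Agent.QSN.OvsStmt := Pool.Agent.QSN.H12.ovs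
theorem n_hul : Pool.Agent.QSN.HulStmt := Pool.Agent.QSN.H28.hul
theorem n_nvk : Pool.Agent.QSN.NvkStmt := Pool.Agent.QSN.H89.nvk

/-! ## Rows of squad QSB -/

theorem b_wtx : WtxStmt := H4.wtx
theorem b_csr : CsrStmt := H30.csr b_wtx
theorem b_cs2 : Cs2Stmt := H62.cs2 b_wtx
theorem b_bc2 : Bc2Stmt := H77.bc2
theorem b_brn : BrnStmt := H10.brn a_cof
theorem b_knr : KnrStmt := H51.knr
theorem b_gen : GenStmt := H57.gen b_csr b_cs2 b_bc2 b_brn b_knr n_gls
theorem b_inm : InmStmt := H98.inm a_fcp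
theorem b_ivm : IvmStmt := H47.ivm b_inm
theorem b_cvl : CvlStmt := H62.cvl a_lgm a_nfl
theorem b_tad : TadStmt := H18.tad a_lgm a_nfl a_roo b_cvl b_csr b_ivm n_nsm b_gen
theorem b_brm : BrmStmt := H21.brm a_nfl a_spt a_cof b_cvl b_tad b_ivm b_gen n_cmm
theorem b_tpr : TprStmt := H85.tpr b_wtx b_brn
theorem b_cen : CenStmt := H30C.cen b_brn b_tpr
theorem b_bas : BasStmt := H30B.bas b_brn
theorem b_wds : WdsStmt := H81.wds b_cen
theorem b_cnq : CnqStmt := H30.cnq a_mcj a_pln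
theorem b_clq : ClqStmt := H24.clq a_mcj a_pln
theorem b_dfq : DfqStmt := H16.dfq b_cnq a_grp a_lud a_hvb a_mij
theorem b_flq : FlqStmt :=
  H18.flq a_grp a_mdx a_fsv a_mea a_uts a_fcm a_fex n_sqn b_dfq b_wds a_bch a_lmp a_hvb a_dfn
    a_len a_lud
theorem b_nvp : NvpStmt := H43.nvp a_nvl a_ent
theorem b_vrq : VrqStmt := H34.vrq b_nvp b_cnq b_clq
theorem b_gaq : GaqStmt := H88.gaq n_gze
theorem b_aqm : AqmStmt := H11.aqm
theorem b_wkt : WktStmt := H72.wkt b_brn b_tpr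
theorem b_aze : AzeStmt := H30A.aze
theorem b_mdv : MdvStmt := H41.mdv a_nre a_rdm a_rlg a_rnf a_bch a_lgm
theorem b_spv : SpvStmt := H67.spv a_nre a_rdm a_bch a_lgm
theorem b_ivq : IvqStmt := H28.ivq b_wkt b_aze b_mdv b_spv b_cen a_fcp
theorem b_ptq : PtqStmt := H46.ptq b_wkt b_cen b_wds b_ivq a_pln
theorem b_adt : AdtStmt := H57.adt n_maj b_ptq b_mdv b_wds b_cen a_rlg a_rdm a_lgm a_nfl
theorem b_liq : LiqStmt := H24.liq b_adt n_ovs n_hul
theorem b_scl : SclStmt := H66.scl n_lgc b_wkt b_cen a_lgm a_bch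
theorem b_sml : SmlStmt := H46.sml b_scl
theorem b_ctr : CtrStmt := H88.ctr b_scl
theorem b_inq : InqStmt := H71.inq b_liq n_nvk b_sml b_ctr b_mdv b_spv b_wkt b_cen
theorem b_toq : ToqStmt := H81.toq b_tpr b_wkt b_tad a_lgm a_nfl
theorem b_vgq : VgqStmt := H34.vgq b_bas b_flq b_vrq b_gaq b_aqm b_brm b_cen b_inq b_toq
theorem b_grn : GrnStmt := H16.grn a_pmu a_pnf
theorem b_trn : TrnStmt := H61.trn a_tra a_nfr n_min
theorem b_cln : ClnStmt := H34.cln b_brn
theorem b_wke : WkeStmt := H50.wke b_brn b_wtx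
theorem b_wkm : WkmStmt := H77.wkm b_grn b_trn b_cln b_wke
theorem b_cbm : CbmStmt := H62.cbm a_cha a_lgm
theorem b_ccm : CcmStmt := H15.ccm a_mcj a_bch a_lgm
theorem b_ckm : CkmStmt := H17.ckm a_bch a_lgm
theorem b_cdm : CdmStmt := H43.cdm a_lgm b_cbm b_ccm b_ckm
theorem b_cvm : CvmStmt := H23.cvm a_cha n_cam b_ccm b_cdm

/-- **Main theorem of the squad QSB.**  A quasi-isometric embedding of a domain of type `MB` into
a model space times a Euclidean space yields a weak algebraic embedding. -/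
theorem all (X Y : Pool.Agent.QSX.Dat) (hX : MB X) (E : Type) [NormedAddCommGroup E]
    [InnerProductSpace ℝ E] (f : X.Pt → Y.Pt × E)
    (hf : Pool.Agent.QSX.QIE X.dist (Pool.Agent.QSX.pdist Y E) f) : ∃ T P, WkT X Y T P := by
  obtain ⟨S, P, C, hP, hC, hI⟩ := b_vgq X Y hX E f hf
  exact b_wkm X Y hX S P hP C hC hI

/-- The same for data which have a short description in the sense of `MRB`. -/
theorem allR (X Y : Pool.Agent.QSX.Dat) (hX : Nonempty (MRB X)) (E : Type) [NormedAddCommGroup E]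
    [InnerProductSpace ℝ E] (f : X.Pt → Y.Pt × E)
    (hf : Pool.Agent.QSX.QIE X.dist (Pool.Agent.QSX.pdist Y E) f) : ∃ T P, WkT X Y T P := by
  obtain ⟨hM⟩ := b_cvm X hX
  exact all X Y hM E f hf

end Pool.Agent.QSB.All
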