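import Pool.Agent.Helper45_QSB.ALL
import Pool.Agent.QSB.StmtsX4
import Pool.Agent.Helper18_QSB.FNB
import Pool.Agent.Helper18_QSB.MSB
import Pool.Agent.Helper58_QSB.GWB
import Pool.Agent.Helper63_QSB.TRI
import Pool.Agent.Helper47_QSB.SLT
import Pool.Agent.Helper16_QSB.INT
import Pool.Agent.Helper69_QSB.CRY
import Pool.Agent.Helper46_QSB.RYS
import Pool.Agent.Helper95_QSB.IJS
import Pool.Agent.Helper40_QSB.TWS
import Pool.Agent.Helper13_QSB.RRS
import Pool.Agent.Helper89_QSB.WTR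
import Pool.Agent.Helper98_QSB.SMR
import Pool.Agent.Helper13_QSB.SPR
import Pool.Agent.Helper85_QSB.SLI
import Pool.Agent.Helper96_QSB.GNS
import Pool.Agent.Helper19_QSB.GEM
import Pool.Agent.Helper34_QSB.SUP
import Pool.Agent.Helper24_QSB.DOM
import Pool.Agent.Helper3_QSB.HVT
import Pool.Agent.Helper57_QSB.CLB
import Pool.Agent.Helper62_QSB.SCB
import Pool.Agent.Helper8_QSB.RKB
import Pool.Agent.Helper1_QSB.MRA
import Pool.Agent.Helper59_QSB.S3A
import Pool.Agent.Helper75_QSB.S4A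
import Pool.Agent.Helper42_QSB.THS
import Pool.Agent.Helper49_QSB.RQP
import Pool.Agent.Helper49_QSB.AL4
import Pool.Agent.Helper70_QSB.DL4
import Pool.Agent.Helper62_QSB.S43
import Pool.Agent.Helper43_QSB.FN4
import Pool.Agent.Helper40_QSB.BWT
import Pool.Agent.Helper3_QSB.JCB
import Pool.Agent.Helper19_QSB.JCC
import Pool.Agent.Helper72_QSB.TRW
import Pool.Agent.Helper20_QSB.PRB
import Pool.Agent.Helper27_QSN.CSR
import Pool.Agent.Helper4_QSN.WTX

set_option autoImplicit false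

/-! # Squad QSB: assembly of the structure theory and the theorem in equal rank -/

namespace Pool.Agent.QSB.All

open Pool.Agent.QSX.Asm Pool.Agent.QSX Pool.Agent.QSN

/-! ## Structure theory -/

theorem s_gwb : GwbStmt := H58.gwb
theorem s_tri : TriStmt := H63.tri s_gwb
theorem s_slt : SltStmt := H47.slt
theorem s_int : IntStmt := H16I.int s_gwb s_tri s_slt
theorem s_cry : CryStmt := H69.cry s_int
theorem s_rys : RysStmt := H46.rys s_gwb s_int
theorem s_ijs : IjsStmt := H95.ijs s_gwb s_int s_cry s_rys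
theorem s_tws : TwsStmt := H40.tws s_gwb s_int s_cry
theorem s_rrs : RrsStmt := H13.rrs s_rys s_ijs s_tws
theorem s_wtr : WtrStmt := H89.wtr
theorem s_smr : SmrStmt := H98.smr s_gwb s_wtr
theorem s_spr : SprStmt := H13.spr s_gwb s_int
theorem s_sli : SliStmt := H85.sli s_gwb s_spr
theorem s_gns : GnsStmt := H96.gns s_gwb s_int s_wtr s_smr
theorem s_gem : GemStmt := H19.gem s_wtr s_smr s_sli s_gns
theorem s_sup : SupStmt := H34.sup s_gwb s_int s_wtr s_smr
theorem s_dom : DomStmt := H24.dom s_wtr s_smr s_spr s_sup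
theorem s_hvt : HvtStmt := H3.hvt s_gwb s_tri s_int s_wtr s_dom
theorem s_clb : ClbStmt := H57.clb s_gwb s_int s_cry s_rys s_wtr s_hvt
theorem s_scb : ScbStmt := H62.scb
theorem s_rkb : RkbStmt := H8.rkb
theorem s_mra : MraStmt := H1.mra s_gwb s_rys s_gem s_clb s_scb s_rkb
theorem s_s3a : S3aStmt := H59.s3a s_rys s_wtr s_gns
theorem s_s4a : S4aStmt := H75.s4a s_rys s_wtr s_gns
theorem s_ths : ThsStmt := H42.ths s_gwb s_int s_cry
theorem s_s43 : S43Stmt := H62.s43

theorem r_bwt : BwtStmt := H40.bwt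
theorem r_jcb : JcbStmt := H3.jcb r_bwt
theorem r_jcc : JccStmt := H19.jcc r_bwt
theorem r_trw : TrwStmt := H72.trw
theorem r_dl4 : Dl4Stmt := H70.dl4 r_bwt r_jcb r_jcc
theorem r_al4 : Al4Stmt := H49.al4 r_bwt r_trw r_dl4
theorem r_rqp : RqpStmt := H49.rqp
theorem r_wkx : WkxStmt := H18.wkx b_vgq b_wkm
theorem r_fn4 : Fn4Stmt := H43.fn4 b_wtx r_wkx r_al4 a_emb a_len
theorem r_msb : MsbStmt := H18.msb (Pool.Agent.QSN.H27.csr Pool.Agent.QSN.H4.wtx)
theorem r_prb : PrbStmt := H20.prb a_ebd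

/-- the condition on the target holds for every symmetric space -/
theorem sym_rq (Y : Dat) (hY : Nonempty (Sym Y)) : RQ Y where
  rr := s_rrs Y hY
  thr := s_ths Y hY

/-- a symmetric space with a rational basis without rank one factors except the hyperbolic plane is of
type `MB` -/
theorem sym_mb (X : Dat) (hX : Nonempty (Sym X)) (R : RBas X) (hR : R.NR) : Nonempty (MB X) :=
  b_cvm X (s_mra X hX R hR)

/-- **The theorem in equal rank.**  `X`, `Y` symmetric spaces of the same rank, `X` with a rational basis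
of root vectors and without rank one factors except the hyperbolic plane, and `S4 X` or `Y` reduced. -/
theorem fin (X Y : Dat) (hX : Nonempty (Sym X)) (R : RBas X) (hR : R.NR) (hY : Nonempty (Sym Y))
    (hS : S4 X ∨ Red Y) (hr : Module.finrank ℝ X.b = Module.finrank ℝ Y.b) :
    (QE X Y ↔ AlgEmb X Y) ∧ ((∃ f : X.Pt → Y.Pt, QIE X.dist Y.dist f) ↔ AlgEmb X Y) :=
  r_fn4 X Y (sym_mb X hX R hR) (sym_rq Y hY) hS hr

end Pool.Agent.QSB.All
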